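import Pool.Agent.Helper48.OR.Defs

/-!
# One-relator algebras, part M3 (MP_b71150_al): finitely many relations, the source of
undecidability, computability of the list of terms
-/

set_option autoImplicit false

namespace Pool.Agent.Helper32.OR

open Pool.Agent.Helper91.SG Pool.Agent.Helper48.OR

theorem finite_Om (Q K A : Type) [Finite Q] [Finite K] [Finite A] : Finite (Om Q K A) := by
  refine Finite.of_surjective
    (fun x : Q ⊕ (K × A) => match x with
      | .inl q => (Om.st q : Om Q K A)
      | .inr p => Om.lt p.1 p.2) ?_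
  intro x
  cases x with
  | st q => exact ⟨.inl q, rfl⟩
  | lt k a => exact ⟨.inr (k, a), rfl⟩

theorem m3a (Q K A : Type) [Finite Q] [Finite K] [Finite A] (δ : Q → Cmd Q K A) (qr : Q) :
    {r : List (Om Q K A) × List (Om Q K A) | Rel δ qr r.1 r.2}.Finite := by
  have := finite_Om Q K A
  have h1 : {l : List (Om Q K A) | l.length ≤ 2}.Finite := List.finite_length_le _ 2
  refine (h1.prod h1).subset ?_
  rintro ⟨u, v⟩ h
  change Rel δ qr u v at h
  cases h <;> exact ⟨by simp, by simp⟩

theorem terminal_eq {X : Type} {st : X → Option X} {a b c : X}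
    (hb : Relation.ReflTransGen (fun x y => st x = some y) a b)
    (hc : Relation.ReflTransGen (fun x y => st x = some y) a c)
    (h1 : st b = none) (h2 : st c = none) : b = c := by
  have hU : Relator.RightUnique (fun x y => st x = some y) := by
    intro x y z hy hz
    rw [hy] at hz
    exact Option.some.inj hz
  rcases Relation.ReflTransGen.total_of_right_unique hU hb hc with h | h
  · rcases Relation.ReflTransGen.cases_head h with h | ⟨d, hd, -⟩
    · exact h
    · rw [h1] at hd
      exact absurd hd (by simp)
  · rcases Relation.ReflTransGen.cases_head h with h | ⟨d, hd, -⟩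
    · exact h.symm
    · rw [h2] at hd
      exact absurd hd (by simp)

theorem m3b : ∃ (Q : Type) (_ : Finite Q)
    (δ : Q → Cmd Q Turing.PartrecToTM2.K' (Option Turing.PartrecToTM2.Γ'))
    (q0 qr : Q), δ qr = .halt ∧ ¬ ComputablePred fun n : ℕ => Rch δ qr (q0, inpStk n) := by
  obtain ⟨Q, hQ, δ, q0, qr, hh, hD⟩ := exists_machine
  refine ⟨Q, hQ, δ, q0, qr, hh, fun hcomp => ?_⟩
  obtain ⟨n, h | h⟩ := hD (fun n => ¬ Rch δ qr (q0, inpStk n)) hcomp.not
  · obtain ⟨h1, c, hc, hterm, hne⟩ := h
    rw [not_not] at h1
    obtain ⟨c', hc', hq⟩ := h1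
    have hterm' : step δ c' = none := by
      unfold step
      rw [hq, hh]
    exact hne ((terminal_eq hc hc' hterm hterm') ▸ hq)
  · obtain ⟨h1, c, hc, hq⟩ := h
    exact h1 ⟨c, hc, hq⟩

theorem primrec_replicate {α : Type} [Primcodable α] (a : α) :
    Primrec (fun k : ℕ => List.replicate k a) := by
  have h : Primrec (fun k : ℕ => (List.range k).map (fun _ => a)) :=
    Primrec.list_map Primrec.list_range (Primrec.const a).to₂
  refine h.of_eq fun k => ?_
  rw [List.map_const', List.length_range]

theorem m3c (Q : Type) (q0 : Q) (N : ℕ)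
    (e : Om Q Turing.PartrecToTM2.K' (Option Turing.PartrecToTM2.Γ') → Fin N)
    (C : Type) [Primcodable C] (t t' : List (C × List (Fin N))) (v : List (Fin N)) :
    Computable fun n : ℕ =>
      (t.map fun s => (s.1, (((Om.st q0 :: wz [.main, .rev, .aux, .stack] (inpStk n)).map e) ++ s.2))) ++
      (t'.map fun s => (s.1, v ++ s.2)) := by
  have hw : Primrec fun n : ℕ =>
      ((Om.st q0 :: wz [.main, .rev, .aux, .stack] (inpStk n)).map e : List (Fin N)) := by
    have h1 : Primrec fun n : ℕ =>
        (e (.st q0) :: (List.replicate n (e (.lt .main (some Turing.PartrecToTM2.Γ'.bit1))) ++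
          [e (.lt .main (some Turing.PartrecToTM2.Γ'.cons)), e (.lt .main none),
            e (.lt .rev none), e (.lt .aux none), e (.lt .stack none)]) : List (Fin N)) :=
      Primrec.list_cons.comp (Primrec.const _)
        (Primrec.list_append.comp (primrec_replicate _) (Primrec.const _))
    refine h1.of_eq fun n => ?_
    simp [wz, inpStk, List.flatMap_cons]
  have h2 : Primrec fun n : ℕ => (t.map fun s =>
      (s.1, (((Om.st q0 :: wz [.main, .rev, .aux, .stack] (inpStk n)).map e) ++ s.2)) :
        List (C × List (Fin N))) := by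
    refine Primrec.list_map (Primrec.const t) ?_
    refine Primrec.pair (Primrec.fst.comp Primrec.snd) ?_
    exact Primrec.list_append.comp (hw.comp Primrec.fst) (Primrec.snd.comp Primrec.snd)
  exact (Primrec.list_append.comp h2 (Primrec.const _)).to_comp

/-- Part M3. -/
theorem m3 : StM3 := by
  refine ⟨?_, m3b, ?_⟩
  · intro Q K A _ _ _ δ qr
    exact m3a Q K A δ qr
  · intro Q q0 N e C _ t t' v
    exact m3c Q q0 N e C t t' v

end Pool.Agent.Helper32.OR
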